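import Mathlib

/-! # Coefficient vectors of polynomials with a given value -/

set_option autoImplicit false

namespace T9h23.Op

open Finset

/-- integer vectors with entries in `[-H, H]` -/
noncomputable def box (d H : ℕ) : Finset (Fin d → ℤ) := Fintype.piFinset fun _ => Icc (-(H : ℤ)) H

/-- the value at `n` of the polynomial with coefficients `a` -/
def ev {d : ℕ} (a : Fin d → ℤ) (n : ℤ) : ℤ := ∑ i, a i * n ^ (i : ℕ)

theorem res_card (H : ℕ) (m v : ℤ) (hm : 0 < m) :
    (((Icc (-(H : ℤ)) H).filter (fun t => m ∣ t - v)).card : ℝ) ≤ (2 * H + 1) / m + 1 := by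
  have h0 : (Icc (-(H : ℤ)) H).filter (fun t => m ∣ t - v) =
      (Ioc (-(H : ℤ) - 1) H).filter (fun t => t ≡ v [ZMOD m]) := by
    ext t
    rw [mem_filter, mem_filter, mem_Icc, mem_Ioc, Int.modEq_iff_dvd]
    constructor
    · rintro ⟨h1, h2⟩
      refine ⟨⟨by omega, h1.2⟩, ?_⟩
      rw [← dvd_neg, neg_sub]; exact h2
    · rintro ⟨h1, h2⟩
      refine ⟨⟨by omega, h1.2⟩, ?_⟩
      rw [← dvd_neg, neg_sub]; exact h2
  rw [h0]
  have h1 := Int.Ioc_filter_modEq_card (-(H : ℤ) - 1) H hm v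
  have h2 : ((#{x ∈ Ioc (-(H : ℤ) - 1) H | x ≡ v [ZMOD m]} : ℤ) : ℝ) =
      ((max (⌊((H : ℤ) - v) / (m : ℚ)⌋ - ⌊((-(H : ℤ) - 1 : ℤ) - v) / (m : ℚ)⌋) 0 : ℤ) : ℝ) := by
    rw [h1]
  rw [Int.cast_natCast] at h2
  rw [h2]
  have hmr : (0 : ℝ) < m := by exact_mod_cast hm
  have hmq : (0 : ℚ) < m := by exact_mod_cast hm
  rw [Int.cast_max]
  apply max_le
  · have e1 : ((⌊((H : ℤ) - v) / (m : ℚ)⌋ : ℤ) : ℚ) ≤ ((H : ℤ) - v) / (m : ℚ) := Int.floor_le _
    have e2 : ((-(H : ℤ) - 1 : ℤ) - v) / (m : ℚ) < ⌊((-(H : ℤ) - 1 : ℤ) - v) / (m : ℚ)⌋ + 1 :=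
      Int.lt_floor_add_one _
    have e3 : ((⌊((H : ℤ) - v) / (m : ℚ)⌋ - ⌊((-(H : ℤ) - 1 : ℤ) - v) / (m : ℚ)⌋ : ℤ) : ℚ) ≤
        (2 * H + 1) / m + 1 := by
      push_cast at e1 e2 ⊢
      have e4 : ((H : ℚ) - v) / m - (-(H : ℚ) - 1 - v) / m = (2 * H + 1) / m := by
        field_simp; ring
      linarith
    exact_mod_cast e3
  · push_cast
    positivity

theorem ev_succ {d : ℕ} (a : Fin (d + 1) → ℤ) (n : ℤ) : ev a n = a 0 + n * ev (Fin.tail a) n := by
  unfold ev
  rw [Fin.sum_univ_succ, mul_sum]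
  congr 1
  · simp
  · refine Finset.sum_congr rfl fun i _ => ?_
    rw [Fin.val_succ, pow_succ]
    unfold Fin.tail
    ring

theorem mem_box {d H : ℕ} {a : Fin d → ℤ} : a ∈ box d H ↔ ∀ i, |a i| ≤ H := by
  unfold box
  rw [Fintype.mem_piFinset]
  refine forall_congr' fun i => ?_
  rw [mem_Icc, abs_le]

/-- nonzero argument: base `n` expansions -/
theorem cntv (H : ℕ) (n : ℤ) (hn : n ≠ 0) : ∀ d : ℕ, ∀ v : ℤ,
    (((box (d + 1) H).filter (fun a => ev a n = v)).card : ℝ) ≤ ((2 * H + 1) / |(n : ℝ)| + 1) ^ d := by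
  intro d
  induction d with
  | zero =>
    intro v
    rw [pow_zero]
    have : ((box (0 + 1) H).filter (fun a => ev a n = v)).card ≤ 1 := by
      rw [Finset.card_le_one]
      intro a ha b hb
      rw [mem_filter, ev_succ] at ha hb
      have ha2 := ha.2
      have hb2 := hb.2
      simp only [ev, Finset.univ_eq_empty, Finset.sum_empty, mul_zero, add_zero] at ha2 hb2
      funext i
      rw [Fin.fin_one_eq_zero i, ha2, hb2]
    exact_mod_cast this
  | succ d ih =>
    intro v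
    set s := (box (d + 1 + 1) H).filter (fun a => ev a n = v) with hs
    set T := (Icc (-(H : ℤ)) H).filter (fun t => |n| ∣ t - v) with hT
    have hmaps : ∀ a ∈ s, a 0 ∈ T := by
      intro a ha
      rw [hs, mem_filter, mem_box] at ha
      rw [hT, mem_filter, mem_Icc, ← abs_le]
      refine ⟨ha.1 0, ?_⟩
      rw [abs_dvd]
      refine ⟨-ev (Fin.tail a) n, ?_⟩
      have := ev_succ a n
      rw [ha.2] at this
      linarith
    have hcard := Finset.card_eq_sum_card_fiberwise (f := fun a : Fin (d + 1 + 1) → ℤ => a 0) (s := s) (t := T)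
      (fun a ha => hmaps a ha)
    have hn0 : (0 : ℝ) < |(n : ℝ)| := by
      rw [abs_pos]; exact_mod_cast hn
    have hQ : (0 : ℝ) ≤ (2 * H + 1) / |(n : ℝ)| + 1 := by positivity
    have hfib : ∀ t ∈ T, ((s.filter (fun a => a 0 = t)).card : ℝ) ≤ ((2 * H + 1) / |(n : ℝ)| + 1) ^ d := by
      intro t _
      refine le_trans ?_ (ih ((v - t) / n))
      have : (s.filter (fun a => a 0 = t)).card ≤
          ((box (d + 1) H).filter (fun a => ev a n = (v - t) / n)).card := by
        refine Finset.card_le_card_of_injOn Fin.tail ?_ ?_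
        · intro a ha
          rw [Finset.mem_coe, mem_filter, hs, mem_filter, mem_box] at ha
          obtain ⟨⟨h1, h2⟩, h3⟩ := ha
          rw [Finset.mem_coe, mem_filter, mem_box]
          refine ⟨fun i => h1 i.succ, ?_⟩
          have h4 := ev_succ a n
          rw [h2, h3] at h4
          have h5 : v - t = n * ev (Fin.tail a) n := by linarith
          rw [h5, Int.mul_ediv_cancel_left _ hn]
        · intro a ha b hb hab
          rw [Finset.mem_coe, mem_filter] at ha hb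
          rw [← Fin.cons_self_tail a, ← Fin.cons_self_tail b, hab, ha.2, hb.2]
      exact_mod_cast this
    have hTc : (T.card : ℝ) ≤ (2 * H + 1) / |(n : ℝ)| + 1 := by
      have := res_card H |n| v (abs_pos.2 hn)
      rw [Int.cast_abs] at this
      exact this
    calc (s.card : ℝ) = ∑ t ∈ T, ((s.filter (fun a => a 0 = t)).card : ℝ) := by
          rw [hcard]; push_cast; rfl
      _ ≤ T.card • ((2 * H + 1) / |(n : ℝ)| + 1) ^ d := Finset.sum_le_card_nsmul _ _ _ hfib
      _ ≤ ((2 * H + 1) / |(n : ℝ)| + 1) * ((2 * H + 1) / |(n : ℝ)| + 1) ^ d := by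
          rw [nsmul_eq_mul]; gcongr
      _ = _ := by rw [pow_succ]; ring

/-- argument zero -/
theorem cnt0 (H d : ℕ) (v : ℤ) :
    (((box (d + 1) H).filter (fun a => ev a 0 = v)).card : ℝ) ≤ (2 * H + 1) ^ d := by
  have h1 : ((box (d + 1) H).filter (fun a => ev a 0 = v)).card ≤ (box d H).card := by
    refine Finset.card_le_card_of_injOn Fin.tail ?_ ?_
    · intro a ha
      rw [Finset.mem_coe, mem_filter, mem_box] at ha
      rw [Finset.mem_coe, mem_box]
      exact fun i => ha.1 i.succ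
    · intro a ha b hb hab
      rw [Finset.mem_coe, mem_filter, ev_succ, zero_mul, add_zero] at ha hb
      rw [← Fin.cons_self_tail a, ← Fin.cons_self_tail b, hab, ha.2, hb.2]
  have h2 : (box d H).card = (2 * H + 1) ^ d := by
    unfold box
    rw [Fintype.card_piFinset]
    simp only [Int.card_Icc, Finset.prod_const, Finset.card_univ, Fintype.card_fin]
    congr 1
    omega
  calc (((box (d + 1) H).filter (fun a => ev a 0 = v)).card : ℝ) ≤ ((box d H).card : ℝ) := by exact_mod_cast h1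
    _ = _ := by rw [h2]; push_cast; ring

/-- all arguments -/
theorem cnt (H d : ℕ) (hH : 1 ≤ H) (n v : ℤ) :
    (((box (d + 1) H).filter (fun a => ev a n = v)).card : ℝ) ≤
      6 ^ d * ((H : ℝ) ^ d * (max |(n : ℝ)| 1 ^ d)⁻¹ + 1) := by
  have hHr : (1 : ℝ) ≤ H := by exact_mod_cast hH
  rcases eq_or_ne n 0 with h0 | h0
  · subst h0
    refine (cnt0 H d v).trans ?_
    have h1 : (2 * (H : ℝ) + 1) ^ d ≤ (6 * H) ^ d := by
      gcongr; linarith
    refine h1.trans ?_
    rw [mul_pow, Int.cast_zero, abs_zero, max_eq_right (by norm_num : (0 : ℝ) ≤ 1), one_pow, inv_one, mul_one]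
    gcongr
    linarith
  · have hn1 : (1 : ℝ) ≤ |(n : ℝ)| := by
      have : 1 ≤ |n| := Int.one_le_abs h0
      exact_mod_cast this
    rw [max_eq_left hn1]
    refine (cntv H n h0 d v).trans ?_
    have hn0 : (0 : ℝ) < |(n : ℝ)| := by linarith
    set q : ℝ := H / |(n : ℝ)| with hq
    have hq0 : 0 ≤ q := by positivity
    have h1 : (2 * (H : ℝ) + 1) / |(n : ℝ)| + 1 ≤ 6 * max q 1 := by
      have h2 : (2 * (H : ℝ) + 1) / |(n : ℝ)| ≤ 3 * q := by
        rw [hq, ← mul_div_assoc]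
        gcongr
        linarith
      have h3 := le_max_left q 1
      have h4 := le_max_right q 1
      linarith
    have h5 : (H : ℝ) ^ d * (|(n : ℝ)| ^ d)⁻¹ = q ^ d := by
      rw [hq, div_pow]; rfl
    rw [h5]
    calc ((2 * (H : ℝ) + 1) / |(n : ℝ)| + 1) ^ d ≤ (6 * max q 1) ^ d := by gcongr
      _ = 6 ^ d * (max q 1) ^ d := by rw [mul_pow]
      _ ≤ 6 ^ d * (q ^ d + 1) := by
          gcongr
          rcases le_total q 1 with h | h
          · rw [max_eq_right h, one_pow]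
            have : 0 ≤ q ^ d := by positivity
            linarith
          · rw [max_eq_left h]; linarith

/-- size of the values -/
theorem ev_le (H d : ℕ) (n : ℤ) (a : Fin (d + 1) → ℤ) (ha : a ∈ box (d + 1) H) :
    |(ev a n : ℝ)| ≤ (d + 1) * H * max |(n : ℝ)| 1 ^ d := by
  rw [mem_box] at ha
  unfold ev
  push_cast
  refine (Finset.abs_sum_le_sum_abs _ _).trans ?_
  have h1 : ∀ i ∈ (univ : Finset (Fin (d + 1))), |(a i : ℝ) * (n : ℝ) ^ (i : ℕ)| ≤ H * max |(n : ℝ)| 1 ^ d := by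
    intro i _
    rw [abs_mul, abs_pow]
    have e1 : |(a i : ℝ)| ≤ H := by
      have := ha i
      exact_mod_cast this
    have e2 : |(n : ℝ)| ^ (i : ℕ) ≤ max |(n : ℝ)| 1 ^ d := by
      calc |(n : ℝ)| ^ (i : ℕ) ≤ max |(n : ℝ)| 1 ^ (i : ℕ) := by
            gcongr; exact le_max_left _ _
        _ ≤ _ := pow_le_pow_right₀ (le_max_right _ _) (by omega)
    gcongr
  refine (Finset.sum_le_card_nsmul _ _ _ h1).trans ?_
  rw [card_univ, Fintype.card_fin, nsmul_eq_mul]
  push_cast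
  apply le_of_eq
  ring

end T9h23.Op
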