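import Pool.Agent.Q278.KT.Fin

/-! # Few integers with few primes in one of the intervals of Oppermann -/

set_option autoImplicit false

namespace T9h23.Op

open Finset Pool.Agent.Q240.KS

/-- the number of primes in the open interval `(a, b)` -/
def np (a b : ℕ) : ℕ := ((Ioo a b).filter Nat.Prime).card

/-- both intervals of Oppermann at `x` contain at least `c x / log x` primes, and `x ≥ 2` -/
def Opp (c : ℝ) (x : ℕ) : Prop := 2 ≤ x ∧ c * x / Real.log x ≤ np (x ^ 2 - x) (x ^ 2) ∧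
  c * x / Real.log x ≤ np (x ^ 2) (x ^ 2 + x)

/-- the integers `x` with `e^{j/6} ≤ x < e^{(j+1)/6}` with few primes after `x ^ 2 - x` (`s = 0`) or after
`x ^ 2` (`s = 1`) -/
theorem piece : ∃ c η : ℝ, 0 < c ∧ 0 < η ∧ ∃ j0 : ℕ, ∀ j : ℕ, j0 ≤ j → ∀ s : ℕ, s ≤ 1 → ∀ U : Finset ℕ,
    (∀ x ∈ U, Real.exp (j / 6) ≤ x ∧ (x : ℝ) < Real.exp ((j + 1) / 6) ∧
      (np (x ^ 2 - x + s * x) (x ^ 2 + s * x) : ℝ) < c * x / Real.log x) →
    (U.card : ℝ) ≤ Real.exp ((0.306 - η) * ((j + 1) / 3)) := by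
  obtain ⟨c, η, Y₀, hc, hη, hM⟩ := Pool.Agent.Q278.KT.mainp_half
  set j0 : ℕ := max 600 (max ⌈3 * Y₀⌉₊ ⌈3 / η⌉₊) with hj0
  refine ⟨c / 40, η, by positivity, by positivity, j0, ?_⟩
  intro j hj s hs U hU
  have hj1 : 600 ≤ j := (le_max_left _ _).trans hj
  have hj2 : 3 * Y₀ ≤ j := (Nat.le_ceil _).trans
    (by exact_mod_cast ((le_max_left _ _).trans (le_max_right _ _)).trans hj)
  have hj3 : 3 / η ≤ j := (Nat.le_ceil _).trans
    (by exact_mod_cast ((le_max_right _ _).trans (le_max_right _ _)).trans hj)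
  have hj1r : (600 : ℝ) ≤ j := by exact_mod_cast hj1
  rw [div_le_iff₀ hη] at hj3
  set Y : ℝ := ((j : ℝ) + 1) / 3 with hY
  set h : ℝ := Real.exp (j / 6) / 2 with hh
  have hE : (100 : ℝ) ≤ Real.exp (j / 6) := by
    have := Real.add_one_le_exp ((j : ℝ) / 6)
    linarith
  have hx100 : ∀ x ∈ U, (100 : ℝ) ≤ x := fun x hx => hE.trans (hU x hx).1
  have hx100' : ∀ x ∈ U, 100 ≤ x := fun x hx => by exact_mod_cast hx100 x hx
  set f : ℕ → ℝ := fun x => ((x ^ 2 - x + s * x : ℕ) : ℝ) with hf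
  have hf1 : ∀ x ∈ U, f x = (x : ℝ) ^ 2 - x + s * x := by
    intro x hx
    have h1 : x ≤ x ^ 2 := by nlinarith [hx100' x hx]
    simp only [hf]
    push_cast [Nat.cast_sub h1]
    ring
  have hs' : s = 0 ∨ s = 1 := by omega
  have hsr : (0 : ℝ) ≤ s ∧ (s : ℝ) ≤ 1 := by
    rcases hs' with h | h <;> rw [h] <;> norm_num
  have hsep : ∀ x ∈ U, ∀ x' ∈ U, x < x' → h ≤ f x' - f x := by
    intro x hx x' hx' hlt
    rw [hf1 x hx, hf1 x' hx']
    have h1 : (x : ℝ) + 1 ≤ x' := by exact_mod_cast hlt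
    have h2 := (hU x hx).1
    have h3 := hx100 x hx
    have h4 : (x : ℝ) + x' - 1 ≤ ((x' : ℝ) - x) * (x + x' - 1 + s) := by nlinarith
    have h5 : ((x' : ℝ) ^ 2 - x' + s * x') - ((x : ℝ) ^ 2 - x + s * x) = ((x' : ℝ) - x) * (x + x' - 1 + s) := by
      ring
    rw [h5]
    have h6 : h ≤ x := by rw [hh]; linarith
    linarith
  have hhpos : 0 < h := by rw [hh]; positivity
  have hsep' : ∀ x ∈ U, ∀ x' ∈ U, x ≠ x' → h ≤ |f x - f x'| := by
    intro x hx x' hx' hne
    rcases lt_or_gt_of_ne hne with h1 | h1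
    · rw [abs_sub_comm]
      exact (hsep x hx x' hx' h1).trans (le_abs_self _)
    · exact (hsep x' hx' x hx h1).trans (le_abs_self _)
  have hinj : Set.InjOn f U := by
    intro x hx x' hx' heq
    by_contra hne
    have := hsep' x hx x' hx' hne
    rw [heq, sub_self, abs_zero] at this
    linarith
  have hfin := hM Y (by rw [hY]; linarith) h ?_ ?_ (U.image f) ?_ ?_
  · rw [Finset.card_image_of_injOn hinj] at hfin
    exact hfin
  · have h1 : Real.log 2 ≤ 0.7 := by
      have := Real.log_two_lt_d9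
      linarith
    have h2 : Real.exp ((1 - 1 / 2 - η) * Y) ≤ Real.exp (j / 6 - Real.log 2) := by
      apply Real.exp_le_exp.2
      rw [hY]
      nlinarith
    refine h2.trans ?_
    rw [Real.exp_sub, Real.exp_log (by norm_num)]
  · have h2 : h ≤ Real.exp (j / 6) := by
      rw [hh]; linarith [Real.exp_pos ((j : ℝ) / 6)]
    refine h2.trans ?_
    apply Real.exp_le_exp.2
    rw [hY]; linarith
  · intro y hy
    obtain ⟨x, hx, rfl⟩ := mem_image.1 hy
    obtain ⟨g1, g2, g3⟩ := hU x hx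
    have g4 := hx100 x hx
    have hxpos : (0 : ℝ) < x := by linarith
    have hlogx : (j : ℝ) / 6 ≤ Real.log x := by
      rw [Real.le_log_iff_exp_le hxpos]; exact g1
    have hlogx2 : Real.log x < (j + 1) / 6 := by
      rw [Real.log_lt_iff_lt_exp hxpos]; exact g2
    have e1 : (x : ℝ) ^ 2 * Real.exp (-(1 / 20)) ≤ f x := by
      rw [hf1 x hx]
      have h1 : Real.exp (-(1 / 20)) ≤ 0.99 := by
        rw [Real.exp_neg]
        have := Real.add_one_le_exp (1 / 20 : ℝ)
        rw [inv_le_comm₀ (Real.exp_pos _) (by norm_num)]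
        norm_num at this ⊢
        linarith
      have h2 : (x : ℝ) ^ 2 * Real.exp (-(1 / 20)) ≤ (x : ℝ) ^ 2 * 0.99 := by gcongr
      nlinarith
    have e2 : f x ≤ (x : ℝ) ^ 2 := by
      rw [hf1 x hx]
      nlinarith
    have hfpos : 0 < f x := lt_of_lt_of_le (by positivity) e1
    have l1 := Real.log_le_log (by positivity) e1
    have l2 := Real.log_le_log hfpos e2
    rw [Real.log_mul (by positivity) (by positivity), Real.log_exp, Real.log_pow] at l1
    rw [Real.log_pow] at l2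
    push_cast at l1 l2
    refine ⟨hfpos, ?_, ?_⟩
    · rw [abs_le, hY]
      constructor <;> linarith
    · -- few primes
      have h1 : pic (f x) h ≤ np (x ^ 2 - x + s * x) (x ^ 2 + s * x) := by
        unfold pic np
        apply Finset.card_le_card
        intro p hp
        rw [mem_filter, mem_Ioc] at hp
        rw [mem_filter, mem_Ioo]
        obtain ⟨⟨hp1, hp2⟩, hp3⟩ := hp
        have a1 : ⌊f x⌋₊ = x ^ 2 - x + s * x := by simp only [hf]; exact Nat.floor_natCast _
        rw [a1] at hp1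
        refine ⟨⟨hp1, ?_⟩, hp3⟩
        have a2 : (p : ℝ) ≤ f x + h := (Nat.le_floor_iff (by positivity)).1 hp2
        have a3 : (p : ℝ) < (x : ℝ) ^ 2 + s * x := by
          rw [hf1 x hx] at a2
          have : h < x := by rw [hh]; linarith
          linarith
        exact_mod_cast a3
      have h2 : (pic (f x) h : ℝ) ≤ np (x ^ 2 - x + s * x) (x ^ 2 + s * x) := by exact_mod_cast h1
      refine h2.trans_lt (g3.trans_le ?_)
      have hlogpos : 0 < Real.log x := by linarith
      have hYpos : 0 < Y := by rw [hY]; positivity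
      have b1 : (x : ℝ) ≤ 2 * Real.exp (j / 6) := by
        have b2 : Real.exp ((j + 1) / 6) = Real.exp (j / 6) * Real.exp (1 / 6) := by
          rw [← Real.exp_add]; congr 1; ring
        have b3 : Real.exp (1 / 6 : ℝ) ≤ 2 := by
          have := Real.exp_one_lt_d9
          have b4 : Real.exp (1 / 6 : ℝ) ^ 6 = Real.exp 1 := by
            rw [← Real.exp_nat_mul]; norm_num
          by_contra hcon
          push Not at hcon
          have b5 : (2 : ℝ) ^ 6 ≤ Real.exp (1 / 6) ^ 6 := by gcongr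
          rw [b4] at b5
          linarith
        rw [b2] at g2
        nlinarith [Real.exp_pos ((j : ℝ) / 6)]
      calc c / 40 * x / Real.log x ≤ c / 40 * (2 * Real.exp (j / 6)) / (j / 6) := by
            gcongr
        _ ≤ c * h / Y := by
            rw [hh, hY, div_le_div_iff₀ (by positivity) (by positivity)]
            have : 0 < c * Real.exp (j / 6) := by positivity
            nlinarith
  · intro y hy y' hy' hne
    obtain ⟨x, hx, rfl⟩ := mem_image.1 hy
    obtain ⟨x', hx', rfl⟩ := mem_image.1 hy'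
    exact hsep' x hx x' hx' (fun h => hne (by rw [h]))

/-- the number of `x ≤ X` without `Opp c` is `O(X^(0.612 - η))` -/
theorem count : ∃ c C : ℝ, 0 < c ∧ 0 < C ∧ ∀ X : ℕ, 1 ≤ X → ∀ U : Finset ℕ,
    (∀ x ∈ U, x ≤ X ∧ ¬ Opp c x) → (U.card : ℝ) ≤ C * (X : ℝ) ^ (0.612 : ℝ) := by
  classical
  obtain ⟨c, η, hc, hη, j0, hp⟩ := piece
  set η' : ℝ := min η (1 / 10) with hη'
  have hη0 : 0 < η' := lt_min hη (by norm_num)
  have hη1 : η' ≤ η := min_le_left _ _
  have hη2 : η' ≤ 1 / 10 := min_le_right _ _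
  set M0 : ℕ := ⌈Real.exp (j0 / 6)⌉₊ + 2 with hM0
  refine ⟨c, M0 + 2 * (2 * (6 / η' + 2)), hc, by positivity, ?_⟩
  intro X hX U hU
  have hXr : (1 : ℝ) ≤ X := by exact_mod_cast hX
  have hXpos : (0 : ℝ) < X := by linarith
  have hlogX : 0 ≤ Real.log X := Real.log_nonneg hXr
  set J : ℕ := ⌊6 * Real.log X⌋₊ with hJ
  set V : ℕ × ℕ → Finset ℕ := fun q => U.filter (fun x => j0 ≤ q.1 ∧ Real.exp (q.1 / 6) ≤ x ∧
    (x : ℝ) < Real.exp ((q.1 + 1) / 6) ∧
      (np (x ^ 2 - x + q.2 * x) (x ^ 2 + q.2 * x) : ℝ) < c * x / Real.log x) with hV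
  have hsub : U ⊆ range M0 ∪ (range (J + 1) ×ˢ range 2).biUnion V := by
    intro x hx
    rw [mem_union, mem_range]
    rcases lt_or_ge x M0 with h1 | h1
    · exact Or.inl h1
    right
    obtain ⟨hx1, hx2⟩ := hU x hx
    have hx3 : 2 ≤ x := le_trans (by omega) h1
    have hxr : (2 : ℝ) ≤ x := by exact_mod_cast hx3
    have hxpos : (0 : ℝ) < x := by linarith
    have hlog : 0 ≤ Real.log x := Real.log_nonneg (by linarith)
    set j : ℕ := ⌊6 * Real.log x⌋₊ with hj
    have hj1 : (j : ℝ) ≤ 6 * Real.log x := Nat.floor_le (by positivity)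
    have hj2 : 6 * Real.log x < j + 1 := Nat.lt_floor_add_one _
    have hjJ : j ≤ J := by
      apply Nat.floor_le_floor
      have : Real.log x ≤ Real.log X := Real.log_le_log hxpos (by exact_mod_cast hx1)
      linarith
    have hjj0 : j0 ≤ j := by
      apply Nat.le_floor
      have h2 : Real.exp (j0 / 6) ≤ x := by
        have h3 : ((M0 : ℕ) : ℝ) ≤ x := by exact_mod_cast h1
        have h4 := Nat.le_ceil (Real.exp ((j0 : ℝ) / 6))
        rw [hM0] at h3
        push_cast at h3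
        linarith
      have h3 := (Real.le_log_iff_exp_le hxpos).2 h2
      linarith
    have hm1 : Real.exp (j / 6) ≤ x := by
      rw [← Real.le_log_iff_exp_le hxpos]; linarith
    have hm2 : (x : ℝ) < Real.exp ((j + 1) / 6) := by
      rw [← Real.log_lt_iff_lt_exp hxpos]; linarith
    rw [mem_biUnion]
    have h5 : (np (x ^ 2 - x) (x ^ 2) : ℝ) < c * x / Real.log x ∨
        (np (x ^ 2) (x ^ 2 + x) : ℝ) < c * x / Real.log x := by
      by_contra hcon
      push Not at hcon
      exact hx2 ⟨hx3, hcon.1, hcon.2⟩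
    rcases h5 with h5 | h5
    · refine ⟨(j, 0), by rw [mem_product, mem_range, mem_range]; exact ⟨by omega, by norm_num⟩, ?_⟩
      rw [hV, mem_filter]
      refine ⟨hx, hjj0, hm1, hm2, ?_⟩
      simpa using h5
    · refine ⟨(j, 1), by rw [mem_product, mem_range, mem_range]; exact ⟨by omega, by norm_num⟩, ?_⟩
      rw [hV, mem_filter]
      refine ⟨hx, hjj0, hm1, hm2, ?_⟩
      have h6 : x ^ 2 - x + 1 * x = x ^ 2 := by
        have : x ≤ x ^ 2 := by nlinarith
        omega
      dsimp only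
      rw [h6, one_mul]
      exact h5
  have hbd : ∀ q ∈ range (J + 1) ×ˢ range 2, ((V q).card : ℝ) ≤ 2 * (X : ℝ) ^ (0.612 - 2 * η') := by
    rintro ⟨j, s⟩ hq
    rw [mem_product, mem_range, mem_range] at hq
    obtain ⟨hq1, hq2⟩ := hq
    dsimp only at hq1 hq2
    have hJle : (J : ℝ) ≤ 6 * Real.log X := Nat.floor_le (by positivity)
    have hjr : (j : ℝ) ≤ J := by exact_mod_cast (by omega : j ≤ J)
    have hRHS : Real.exp ((0.306 - η') * ((j + 1) / 3)) ≤ 2 * (X : ℝ) ^ (0.612 - 2 * η') := by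
      rw [Real.rpow_def_of_pos hXpos]
      have h1 : (2 : ℝ) = Real.exp (Real.log 2) := (Real.exp_log (by norm_num)).symm
      nth_rewrite 1 [h1]
      rw [← Real.exp_add]
      apply Real.exp_le_exp.2
      have h2 := Real.log_two_gt_d9
      nlinarith
    rcases lt_or_ge j j0 with hjj | hjj
    · have : V (j, s) = ∅ := by
        rw [hV]
        dsimp only
        rw [filter_eq_empty_iff]
        intro x _ hcon
        omega
      rw [this, card_empty]
      push_cast
      positivity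
    refine le_trans ?_ hRHS
    have h1 := hp j hjj s (by omega) (V (j, s)) (by
      intro x hx
      rw [hV, mem_filter] at hx
      exact hx.2.2)
    refine h1.trans ?_
    apply Real.exp_le_exp.2
    have : (0 : ℝ) ≤ ((j : ℝ) + 1) / 3 := by positivity
    nlinarith
  have hc1 : (U.card : ℝ) ≤ M0 + ∑ q ∈ range (J + 1) ×ˢ range 2, ((V q).card : ℝ) := by
    have h1 := (Finset.card_le_card hsub).trans (Finset.card_union_le _ _)
    rw [card_range] at h1
    have h2 := h1.trans (Nat.add_le_add_left Finset.card_biUnion_le _)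
    exact_mod_cast h2
  have hc2 : ∑ q ∈ range (J + 1) ×ˢ range 2, ((V q).card : ℝ) ≤
      (2 * ((J : ℝ) + 1)) * (2 * (X : ℝ) ^ (0.612 - 2 * η')) := by
    have h1 := Finset.sum_le_card_nsmul _ _ _ hbd
    rw [card_product, card_range, card_range, nsmul_eq_mul] at h1
    push_cast at h1
    linarith
  have hJle : (J : ℝ) ≤ 6 * Real.log X := Nat.floor_le (by positivity)
  have hlogle : Real.log X ≤ (X : ℝ) ^ (2 * η') / (2 * η') := Real.log_le_rpow_div hXpos.le (by positivity)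
  have hX1 : (1 : ℝ) ≤ (X : ℝ) ^ (2 * η') := Real.one_le_rpow hXr (by positivity)
  have hJ2 : 2 * ((J : ℝ) + 1) ≤ (6 / η' + 2) * (X : ℝ) ^ (2 * η') := by
    have e1 : 6 * ((X : ℝ) ^ (2 * η') / (2 * η')) * 2 = 6 / η' * (X : ℝ) ^ (2 * η') := by
      field_simp
      try ring
    nlinarith
  have hX2 : (1 : ℝ) ≤ (X : ℝ) ^ (0.612 : ℝ) := Real.one_le_rpow hXr (by norm_num)
  have hmul : (X : ℝ) ^ (2 * η') * (X : ℝ) ^ (0.612 - 2 * η') = (X : ℝ) ^ (0.612 : ℝ) := by
    rw [← Real.rpow_add hXpos]; congr 1; ring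
  have hXp : 0 < (X : ℝ) ^ (0.612 - 2 * η') := Real.rpow_pos_of_pos hXpos _
  calc (U.card : ℝ) ≤ M0 + (2 * ((J : ℝ) + 1)) * (2 * (X : ℝ) ^ (0.612 - 2 * η')) := by linarith
    _ ≤ M0 * (X : ℝ) ^ (0.612 : ℝ) + ((6 / η' + 2) * (X : ℝ) ^ (2 * η')) * (2 * (X : ℝ) ^ (0.612 - 2 * η')) := by
        have g1 : (M0 : ℝ) ≤ M0 * (X : ℝ) ^ (0.612 : ℝ) := le_mul_of_one_le_right (by positivity) hX2
        gcongr
    _ = (M0 + 2 * (6 / η' + 2)) * (X : ℝ) ^ (0.612 : ℝ) := by
        rw [← hmul]; ring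
    _ ≤ _ := by
        have : 0 ≤ (6 / η' + 2) * (X : ℝ) ^ (0.612 : ℝ) := by positivity
        nlinarith

end T9h23.Op
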