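import Pool.Agent.T9h23.Op.A1
import Pool.Agent.T9h23.Op.A2

/-! # The intervals of Oppermann at the values of random polynomials -/

set_option autoImplicit false

namespace T9h23.Op

open Finset
open scoped Classical

/-- one argument -/
theorem per_n {c C : ℝ} (hC : 0 < C) (hcount : ∀ X : ℕ, 1 ≤ X → ∀ U : Finset ℕ,
    (∀ x ∈ U, x ≤ X ∧ ¬ Opp c x) → (U.card : ℝ) ≤ C * (X : ℝ) ^ (0.612 : ℝ))
    (d H : ℕ) (hH : 1 ≤ H) (n : ℤ) (κ : ℝ) (hκ0 : 0 ≤ κ) (hκ1 : κ ≤ 1) :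
    (((box (d + 1) H).filter (fun a => ∃ x : ℕ, abs ((x : ℝ) - |(ev a n : ℝ)|) ≤ (H : ℝ) ^ κ ∧ ¬ Opp c x)).card : ℝ)
      ≤ C * ((d + 2) * H * max |(n : ℝ)| 1 ^ d) ^ (0.612 : ℝ) * (6 * (H : ℝ) ^ κ) *
        (6 ^ d * ((H : ℝ) ^ d * (max |(n : ℝ)| 1 ^ d)⁻¹ + 1)) := by
  have hHr : (1 : ℝ) ≤ H := by exact_mod_cast hH
  set m : ℝ := max |(n : ℝ)| 1 with hm
  have hm1 : 1 ≤ m := le_max_right _ _
  have hmd : 1 ≤ m ^ d := one_le_pow₀ hm1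
  set K : ℕ := ⌊(H : ℝ) ^ κ⌋₊ with hK
  have hK1 : (K : ℝ) ≤ (H : ℝ) ^ κ := Nat.floor_le (by positivity)
  have hHκ : (1 : ℝ) ≤ (H : ℝ) ^ κ := Real.one_le_rpow hHr hκ0
  have hHκ1 : (H : ℝ) ^ κ ≤ H := by
    calc (H : ℝ) ^ κ ≤ (H : ℝ) ^ (1 : ℝ) := Real.rpow_le_rpow_of_exponent_le hHr hκ1
      _ = H := Real.rpow_one _
  set X : ℕ := ⌊((d : ℝ) + 2) * H * m ^ d⌋₊ with hX
  have hXle : (X : ℝ) ≤ ((d : ℝ) + 2) * H * m ^ d := Nat.floor_le (by positivity)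
  have hX1 : 1 ≤ X := by
    apply Nat.le_floor
    push_cast
    have h1 : 1 ≤ (H : ℝ) * m ^ d := by nlinarith
    have h2 : 0 ≤ (d : ℝ) := by positivity
    nlinarith
  set B : Finset ℕ := (range (X + 1)).filter (fun x => ¬ Opp c x) with hB
  have hBc : (B.card : ℝ) ≤ C * (X : ℝ) ^ (0.612 : ℝ) := by
    apply hcount X hX1
    intro x hx
    rw [hB, mem_filter, mem_range] at hx
    exact ⟨by omega, hx.2⟩
  set I : Finset (ℕ × (ℤ × ℤ)) := B ×ˢ (Icc (-(K : ℤ)) K ×ˢ {1, -1}) with hI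
  set V : ℕ × (ℤ × ℤ) → Finset (Fin (d + 1) → ℤ) := fun q =>
    (box (d + 1) H).filter (fun a => ev a n = q.2.2 * (q.1 + q.2.1)) with hV
  have hsub : (box (d + 1) H).filter (fun a => ∃ x : ℕ, abs ((x : ℝ) - |(ev a n : ℝ)|) ≤ (H : ℝ) ^ κ ∧ ¬ Opp c x) ⊆
      I.biUnion V := by
    intro a ha
    rw [mem_filter] at ha
    obtain ⟨ha1, x, hx1, hx2⟩ := ha
    have hev := ev_le H d n a ha1
    rw [mem_biUnion]
    set t : ℤ := |ev a n| - x with ht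
    have ht1 : |(t : ℝ)| ≤ (H : ℝ) ^ κ := by
      rw [ht]
      push_cast
      rw [abs_sub_comm]
      exact hx1
    have ht2 : |t| ≤ K := by
      have h1 : (t.natAbs : ℝ) ≤ (H : ℝ) ^ κ := by
        rw [Nat.cast_natAbs, Int.cast_abs]; exact ht1
      have h2 : t.natAbs ≤ K := Nat.le_floor h1
      rw [Int.abs_eq_natAbs]
      exact_mod_cast h2
    rw [abs_le] at ht2
    have hxB : x ∈ B := by
      rw [hB, mem_filter, mem_range]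
      refine ⟨?_, hx2⟩
      apply Nat.lt_succ_of_le
      apply Nat.le_floor
      have h1 : (x : ℝ) ≤ |(ev a n : ℝ)| + (H : ℝ) ^ κ := by
        rw [abs_le] at hx1
        linarith
      have h2 : (H : ℝ) ≤ H * m ^ d := le_mul_of_one_le_right (by positivity) hmd
      calc (x : ℝ) ≤ (d + 1) * H * m ^ d + H * m ^ d := by linarith
        _ = _ := by ring
    rcases abs_choice (ev a n) with h1 | h1
    · refine ⟨(x, (t, 1)), ?_, ?_⟩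
      · rw [hI, mem_product, mem_product, mem_Icc]
        refine ⟨hxB, ⟨ht2.1, ht2.2⟩, by simp⟩
      · rw [hV, mem_filter]
        refine ⟨ha1, ?_⟩
        dsimp only
        rw [ht, h1]; ring
    · refine ⟨(x, (t, -1)), ?_, ?_⟩
      · rw [hI, mem_product, mem_product, mem_Icc]
        refine ⟨hxB, ⟨ht2.1, ht2.2⟩, by simp⟩
      · rw [hV, mem_filter]
        refine ⟨ha1, ?_⟩
        dsimp only
        rw [ht, h1]; ring
  have hVc : ∀ q ∈ I, ((V q).card : ℝ) ≤ 6 ^ d * ((H : ℝ) ^ d * (m ^ d)⁻¹ + 1) := by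
    intro q _
    exact cnt H d hH n _
  have hIc : (I.card : ℝ) ≤ C * (X : ℝ) ^ (0.612 : ℝ) * (6 * (H : ℝ) ^ κ) := by
    rw [hI, card_product, card_product, Int.card_Icc]
    have h1 : ((({1, -1} : Finset ℤ).card : ℕ) : ℝ) ≤ 2 := by
      have : ({1, -1} : Finset ℤ).card ≤ 2 := Finset.card_le_two
      exact_mod_cast this
    have h2 : (((K : ℤ) + 1 - -(K : ℤ)).toNat : ℝ) ≤ 3 * (H : ℝ) ^ κ := by
      have h3 : ((K : ℤ) + 1 - -(K : ℤ)).toNat = 2 * K + 1 := by omega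
      rw [h3]
      push_cast
      linarith
    push_cast
    calc (B.card : ℝ) * ((((K : ℤ) + 1 - -(K : ℤ)).toNat : ℝ) * ((({1, -1} : Finset ℤ).card : ℕ) : ℝ)) ≤
          (C * (X : ℝ) ^ (0.612 : ℝ)) * ((3 * (H : ℝ) ^ κ) * 2) := by gcongr
      _ = _ := by ring
  calc (((box (d + 1) H).filter (fun a => ∃ x : ℕ, abs ((x : ℝ) - |(ev a n : ℝ)|) ≤ (H : ℝ) ^ κ ∧ ¬ Opp c x)).card : ℝ)
      ≤ ((I.biUnion V).card : ℝ) := by exact_mod_cast Finset.card_le_card hsub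
    _ ≤ ∑ q ∈ I, ((V q).card : ℝ) := by exact_mod_cast Finset.card_biUnion_le
    _ ≤ I.card • (6 ^ d * ((H : ℝ) ^ d * (m ^ d)⁻¹ + 1)) := Finset.sum_le_card_nsmul _ _ _ hVc
    _ = (I.card : ℝ) * (6 ^ d * ((H : ℝ) ^ d * (m ^ d)⁻¹ + 1)) := by rw [nsmul_eq_mul]
    _ ≤ (C * (X : ℝ) ^ (0.612 : ℝ) * (6 * (H : ℝ) ^ κ)) * (6 ^ d * ((H : ℝ) ^ d * (m ^ d)⁻¹ + 1)) := by
        gcongr
    _ ≤ _ := by gcongr

end T9h23.Op
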