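import Pool.Agent.T9h23.Op.A3

/-! # The intervals of Oppermann at the values of random polynomials: all arguments -/

set_option autoImplicit false

namespace T9h23.Op

open Finset Filter Topology
open scoped Classical

theorem sum_inv (M : ℕ) (N : ℝ) (hM : (M : ℝ) ≤ N) (hN : 1 ≤ N) :
    ∑ k ∈ range (M + 1), (max |((k : ℤ) : ℝ)| 1)⁻¹ ≤ 2 + Real.log N := by
  rw [Finset.sum_range_succ']
  have h1 : ∑ k ∈ range M, (max |(((k + 1 : ℕ) : ℤ) : ℝ)| 1)⁻¹ = ((harmonic M : ℚ) : ℝ) := by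
    unfold harmonic
    push_cast
    refine Finset.sum_congr rfl fun k _ => ?_
    rw [abs_of_nonneg (by positivity), max_eq_left]
    have : (0 : ℝ) ≤ k := by positivity
    linarith
  rw [h1]
  have h2 := harmonic_le_one_add_log M
  have h3 : (max |(((0 : ℕ) : ℤ) : ℝ)| 1)⁻¹ = (1 : ℝ) := by simp
  rw [h3]
  have h4 : Real.log M ≤ Real.log N := by
    rcases Nat.eq_zero_or_pos M with h | h
    · rw [h]
      simp only [Nat.cast_zero, Real.log_zero]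
      exact Real.log_nonneg hN
    · exact Real.log_le_log (by exact_mod_cast h) hM
  linarith

/-- the bound for one argument, simplified -/
theorem bk (C : ℝ) (hC : 0 < C) (d H : ℕ) (hH : 1 ≤ H) (κ β N m : ℝ) (hm1 : 1 ≤ m) (hmN : m ≤ N)
    (hβ0 : 0 ≤ β) (hβ1 : 1 - 0.388 * (d : ℝ) ≤ β) :
    C * ((d + 2) * H * m ^ d) ^ (0.612 : ℝ) * (6 * (H : ℝ) ^ κ) * (6 ^ d * ((H : ℝ) ^ d * (m ^ d)⁻¹ + 1)) ≤
      (6 * 6 ^ d * C * ((d : ℝ) + 2) ^ (0.612 : ℝ)) * ((H : ℝ) ^ (0.612 : ℝ) * (H : ℝ) ^ κ) *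
        ((H : ℝ) ^ d * N ^ β * m⁻¹ + N ^ ((d : ℝ) * 0.612)) := by
  have hHr : (1 : ℝ) ≤ H := by exact_mod_cast hH
  have hH0 : (0 : ℝ) < H := by linarith
  have hm0 : 0 < m := by linarith
  have hN0 : 0 < N := by linarith
  have e1 : ((d + 2) * H * m ^ d : ℝ) ^ (0.612 : ℝ) =
      ((d : ℝ) + 2) ^ (0.612 : ℝ) * (H : ℝ) ^ (0.612 : ℝ) * m ^ ((d : ℝ) * 0.612) := by
    rw [Real.mul_rpow (by positivity) (by positivity), Real.mul_rpow (by positivity) (by positivity),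
      ← Real.rpow_natCast m d, ← Real.rpow_mul hm0.le]
  have e2 : m ^ ((d : ℝ) * 0.612) * (m ^ d)⁻¹ ≤ N ^ β * m⁻¹ := by
    rw [← Real.rpow_natCast m d, ← Real.rpow_neg hm0.le, ← Real.rpow_add hm0]
    have h1 : m ^ ((d : ℝ) * 0.612 + -(d : ℝ)) ≤ m ^ (β + -1) := by
      apply Real.rpow_le_rpow_of_exponent_le hm1
      linarith
    refine h1.trans ?_
    rw [Real.rpow_add hm0, Real.rpow_neg_one]
    have h2 : m ^ β ≤ N ^ β := Real.rpow_le_rpow hm0.le hmN hβ0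
    gcongr
  have e3 : m ^ ((d : ℝ) * 0.612) ≤ N ^ ((d : ℝ) * 0.612) :=
    Real.rpow_le_rpow hm0.le hmN (by positivity)
  rw [e1]
  have e4 : C * (((d : ℝ) + 2) ^ (0.612 : ℝ) * (H : ℝ) ^ (0.612 : ℝ) * m ^ ((d : ℝ) * 0.612)) * (6 * (H : ℝ) ^ κ) *
      (6 ^ d * ((H : ℝ) ^ d * (m ^ d)⁻¹ + 1)) =
      (6 * 6 ^ d * C * ((d : ℝ) + 2) ^ (0.612 : ℝ)) * ((H : ℝ) ^ (0.612 : ℝ) * (H : ℝ) ^ κ) *
        ((H : ℝ) ^ d * (m ^ ((d : ℝ) * 0.612) * (m ^ d)⁻¹) + m ^ ((d : ℝ) * 0.612)) := by ring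
  rw [e4]
  have e5 : (H : ℝ) ^ d * N ^ β * m⁻¹ = (H : ℝ) ^ d * (N ^ β * m⁻¹) := by ring
  rw [e5]
  gcongr

theorem total : ∃ c : ℝ, 0 < c ∧ ∀ d : ℕ, 1 ≤ d → ∀ τ κ : ℝ, 0 < τ → 0 ≤ κ → κ < 0.388 →
    κ + τ * (1 - 0.388 * d) < 0.388 → κ + τ * (1 + 0.612 * d) < d + 0.388 →
    ∃ δ : ℝ, 0 < δ ∧ ∃ H0 : ℕ, ∀ H : ℕ, H0 ≤ H →
      (((box (d + 1) H).filter (fun a => ¬ ∀ n : ℤ, |(n : ℝ)| ≤ (H : ℝ) ^ τ → ∀ x : ℕ,
        abs ((x : ℝ) - |(ev a n : ℝ)|) ≤ (H : ℝ) ^ κ → Opp c x)).card : ℝ) ≤ (2 * H + 1) ^ (d + 1) / (H : ℝ) ^ δ := by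
  obtain ⟨c, C, hc, hC, hcount⟩ := count
  refine ⟨c, hc, ?_⟩
  intro d hd τ κ hτ hκ0 hκ1 hcond1 hcond2
  set β : ℝ := max 0 (1 - 0.388 * (d : ℝ)) with hβ
  have hβ0 : 0 ≤ β := le_max_left _ _
  have hβ1 : 1 - 0.388 * (d : ℝ) ≤ β := le_max_right _ _
  have hβ2 : κ + τ * β < 0.388 := by
    rw [hβ]
    rcases max_choice (0 : ℝ) (1 - 0.388 * (d : ℝ)) with h | h <;> rw [h]
    · rw [mul_zero, add_zero]; exact hκ1
    · exact hcond1
  set ε : ℝ := min ((0.388 - (κ + τ * β)) / 2) ((d + 0.388 - (κ + τ * (1 + 0.612 * d))) / 2) with hε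
  have hε0 : 0 < ε := lt_min (by linarith) (by linarith)
  have hεa : 2 * ε ≤ 0.388 - (κ + τ * β) := by
    have := min_le_left ((0.388 - (κ + τ * β)) / 2) ((d + 0.388 - (κ + τ * (1 + 0.612 * d))) / 2)
    linarith
  have hεb : 2 * ε ≤ d + 0.388 - (κ + τ * (1 + 0.612 * d)) := by
    have := min_le_right ((0.388 - (κ + τ * β)) / 2) ((d + 0.388 - (κ + τ * (1 + 0.612 * d))) / 2)
    linarith
  set A : ℝ := 6 * 6 ^ d * C * ((d : ℝ) + 2) ^ (0.612 : ℝ) with hA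
  have hA0 : 0 < A := by positivity
  have hev : ∀ᶠ H : ℕ in atTop, 2 * A * (4 + τ * Real.log H) ≤ (H : ℝ) ^ ε := by
    have h1 : (fun x : ℝ => 2 * A * (4 + τ * Real.log x)) =o[atTop] (fun x : ℝ => x ^ ε) := by
      have h2 : (fun x : ℝ => τ * Real.log x) =o[atTop] (fun x : ℝ => x ^ ε) :=
        (isLittleO_log_rpow_atTop hε0).const_mul_left τ
      have h3 : (fun _ : ℝ => (4 : ℝ)) =o[atTop] (fun x : ℝ => x ^ ε) :=
        Asymptotics.isLittleO_const_left.2 (Or.inr (by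
          have := tendsto_rpow_atTop hε0
          exact tendsto_norm_atTop_atTop.comp this))
      exact (h3.add h2).const_mul_left (2 * A)
    have h4 := (h1.def one_pos)
    have h5 := tendsto_natCast_atTop_atTop.eventually (h4.and (eventually_ge_atTop (1 : ℝ)))
    filter_upwards [h5] with H hH
    obtain ⟨g1, g2⟩ := hH
    rw [one_mul, Real.norm_eq_abs, Real.norm_eq_abs, abs_of_nonneg (show (0 : ℝ) ≤ (H : ℝ) ^ ε by positivity)] at g1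
    exact (le_abs_self _).trans g1
  obtain ⟨H0, hH0⟩ := eventually_atTop.1 hev
  refine ⟨ε, hε0, max H0 1, ?_⟩
  intro H hH
  have hlog := hH0 H ((le_max_left _ _).trans hH)
  have hH1 : 1 ≤ H := (le_max_right _ _).trans hH
  have hHr : (1 : ℝ) ≤ H := by exact_mod_cast hH1
  have hHpos : (0 : ℝ) < H := by linarith
  set N : ℝ := (H : ℝ) ^ τ with hN
  have hN1 : 1 ≤ N := Real.one_le_rpow hHr hτ.le
  have hNpos : 0 < N := by linarith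
  set M : ℕ := ⌊N⌋₊ with hM
  have hMN : (M : ℝ) ≤ N := Nat.floor_le hNpos.le
  set S : ℤ → Finset (Fin (d + 1) → ℤ) := fun n =>
    (box (d + 1) H).filter (fun a => ∃ x : ℕ, abs ((x : ℝ) - |(ev a n : ℝ)|) ≤ (H : ℝ) ^ κ ∧ ¬ Opp c x) with hS
  have hsub : (box (d + 1) H).filter (fun a => ¬ ∀ n : ℤ, |(n : ℝ)| ≤ N → ∀ x : ℕ,
        abs ((x : ℝ) - |(ev a n : ℝ)|) ≤ (H : ℝ) ^ κ → Opp c x) ⊆
      (range (M + 1)).biUnion (fun k : ℕ => S (k : ℤ) ∪ S (-(k : ℤ))) := by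
    intro a ha
    rw [mem_filter] at ha
    obtain ⟨ha1, ha2⟩ := ha
    push Not at ha2
    obtain ⟨n, hn, x, hx1, hx2⟩ := ha2
    rw [mem_biUnion]
    refine ⟨n.natAbs, ?_, ?_⟩
    · rw [mem_range, Nat.lt_succ_iff]
      apply Nat.le_floor
      rw [Nat.cast_natAbs, Int.cast_abs]
      exact hn
    · rw [mem_union]
      rcases Int.natAbs_eq n with h | h
      · left
        rw [← h, hS, mem_filter]
        exact ⟨ha1, x, hx1, hx2⟩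
      · right
        rw [← h, hS, mem_filter]
        exact ⟨ha1, x, hx1, hx2⟩
  set b : ℕ → ℝ := fun k => A * ((H : ℝ) ^ (0.612 : ℝ) * (H : ℝ) ^ κ) *
        ((H : ℝ) ^ d * N ^ β * (max |((k : ℤ) : ℝ)| 1)⁻¹ + N ^ ((d : ℝ) * 0.612)) with hb
  have hSb : ∀ k ∈ range (M + 1), ((S (k : ℤ)).card : ℝ) ≤ b k ∧ ((S (-(k : ℤ))).card : ℝ) ≤ b k := by
    intro k hk
    rw [mem_range] at hk
    have hkN : max |((k : ℤ) : ℝ)| 1 ≤ N := by
      apply max_le _ hN1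
      rw [Int.cast_natCast, abs_of_nonneg (by positivity)]
      have : (k : ℝ) ≤ M := by exact_mod_cast (by omega : k ≤ M)
      linarith
    have hb1 := bk C hC d H hH1 κ β N (max |((k : ℤ) : ℝ)| 1) (le_max_right _ _) hkN hβ0 hβ1
    have g1 := per_n hC hcount d H hH1 (k : ℤ) κ hκ0 (by linarith)
    have g2 := per_n hC hcount d H hH1 (-(k : ℤ)) κ hκ0 (by linarith)
    rw [show |((-(k : ℤ) : ℤ) : ℝ)| = |((k : ℤ) : ℝ)| by rw [Int.cast_neg, abs_neg]] at g2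
    exact ⟨g1.trans hb1, g2.trans hb1⟩
  have hsum1 : (((range (M + 1)).biUnion (fun k : ℕ => S (k : ℤ) ∪ S (-(k : ℤ)))).card : ℝ) ≤
      ∑ k ∈ range (M + 1), 2 * b k := by
    have h1 : (((range (M + 1)).biUnion (fun k : ℕ => S (k : ℤ) ∪ S (-(k : ℤ)))).card : ℝ) ≤
        ∑ k ∈ range (M + 1), ((S (k : ℤ) ∪ S (-(k : ℤ))).card : ℝ) := by
      exact_mod_cast Finset.card_biUnion_le
    refine h1.trans (Finset.sum_le_sum fun k hk => ?_)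
    have h2 : ((S (k : ℤ) ∪ S (-(k : ℤ))).card : ℝ) ≤ (S (k : ℤ)).card + (S (-(k : ℤ))).card := by
      exact_mod_cast Finset.card_union_le _ _
    have h3 := hSb k hk
    linarith [h3.1, h3.2]
  have hsum2 : ∑ k ∈ range (M + 1), 2 * b k =
      2 * A * ((H : ℝ) ^ (0.612 : ℝ) * (H : ℝ) ^ κ) * ((H : ℝ) ^ d * N ^ β *
        ∑ k ∈ range (M + 1), (max |((k : ℤ) : ℝ)| 1)⁻¹ + (M + 1) * N ^ ((d : ℝ) * 0.612)) := by
    rw [hb]
    simp only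
    rw [← mul_sum, ← mul_sum, sum_add_distrib, ← mul_sum, sum_const, card_range, nsmul_eq_mul]
    push_cast
    ring
  have hNlog : Real.log N = τ * Real.log H := by rw [hN, Real.log_rpow hHpos]
  have hsum3 := sum_inv M N hMN hN1
  rw [hNlog] at hsum3
  have hlogH : 0 ≤ Real.log H := Real.log_nonneg hHr
  -- exponents
  have p1 : (H : ℝ) ^ (0.612 : ℝ) * (H : ℝ) ^ κ * ((H : ℝ) ^ d * N ^ β) ≤ (H : ℝ) ^ ((d : ℝ) + 1 - 2 * ε) := by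
    rw [hN, ← Real.rpow_natCast (H : ℝ) d, ← Real.rpow_mul hHpos.le, ← Real.rpow_add hHpos,
      ← Real.rpow_add hHpos, ← Real.rpow_add hHpos]
    apply Real.rpow_le_rpow_of_exponent_le hHr
    linarith
  have p2 : (H : ℝ) ^ (0.612 : ℝ) * (H : ℝ) ^ κ * (N * N ^ ((d : ℝ) * 0.612)) ≤ (H : ℝ) ^ ((d : ℝ) + 1 - 2 * ε) := by
    have h1 : N * N ^ ((d : ℝ) * 0.612) = (H : ℝ) ^ (τ * (1 + 0.612 * d)) := by
      nth_rewrite 1 [← Real.rpow_one N]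
      rw [← Real.rpow_add hNpos, hN, ← Real.rpow_mul hHpos.le]
      congr 1
      ring
    rw [h1, ← Real.rpow_add hHpos, ← Real.rpow_add hHpos]
    apply Real.rpow_le_rpow_of_exponent_le hHr
    linarith
  have hP : 0 < (H : ℝ) ^ ((d : ℝ) + 1 - 2 * ε) := Real.rpow_pos_of_pos hHpos _
  have hfinal : (((box (d + 1) H).filter (fun a => ¬ ∀ n : ℤ, |(n : ℝ)| ≤ N → ∀ x : ℕ,
        abs ((x : ℝ) - |(ev a n : ℝ)|) ≤ (H : ℝ) ^ κ → Opp c x)).card : ℝ) ≤ (H : ℝ) ^ ((d : ℝ) + 1 - ε) := by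
    calc (((box (d + 1) H).filter (fun a => ¬ ∀ n : ℤ, |(n : ℝ)| ≤ N → ∀ x : ℕ,
        abs ((x : ℝ) - |(ev a n : ℝ)|) ≤ (H : ℝ) ^ κ → Opp c x)).card : ℝ)
        ≤ (((range (M + 1)).biUnion (fun k : ℕ => S (k : ℤ) ∪ S (-(k : ℤ)))).card : ℝ) := by
          exact_mod_cast Finset.card_le_card hsub
      _ ≤ _ := hsum1
      _ = _ := hsum2
      _ ≤ 2 * A * ((H : ℝ) ^ (0.612 : ℝ) * (H : ℝ) ^ κ) * ((H : ℝ) ^ d * N ^ β *
        (2 + τ * Real.log H) + (2 * N) * N ^ ((d : ℝ) * 0.612)) := by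
          gcongr
          linarith
      _ = 2 * A * (((H : ℝ) ^ (0.612 : ℝ) * (H : ℝ) ^ κ * ((H : ℝ) ^ d * N ^ β)) * (2 + τ * Real.log H) +
            2 * ((H : ℝ) ^ (0.612 : ℝ) * (H : ℝ) ^ κ * (N * N ^ ((d : ℝ) * 0.612)))) := by ring
      _ ≤ 2 * A * ((H : ℝ) ^ ((d : ℝ) + 1 - 2 * ε) * (2 + τ * Real.log H) +
            2 * (H : ℝ) ^ ((d : ℝ) + 1 - 2 * ε)) := by gcongr
      _ = (2 * A * (4 + τ * Real.log H)) * (H : ℝ) ^ ((d : ℝ) + 1 - 2 * ε) := by ring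
      _ ≤ (H : ℝ) ^ ε * (H : ℝ) ^ ((d : ℝ) + 1 - 2 * ε) := by gcongr
      _ = (H : ℝ) ^ ((d : ℝ) + 1 - ε) := by
          rw [← Real.rpow_add hHpos]; congr 1; ring
  refine hfinal.trans ?_
  rw [le_div_iff₀ (Real.rpow_pos_of_pos hHpos _), ← Real.rpow_add hHpos]
  have e1 : (H : ℝ) ^ ((d : ℝ) + 1 - ε + ε) = (H : ℝ) ^ (d + 1) := by
    rw [← Real.rpow_natCast (H : ℝ) (d + 1)]
    congr 1
    push_cast
    ring
  rw [e1]
  gcongr
  linarith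

end T9h23.Op
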